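import Pool.Agent.Lib.MP_fe4852_pr.Main

/-!
# MP_fe4852_pr: pointwise optimality of the disagreement bound `2x/(1+x)`
-/

namespace Pool.Agent.Results.MP_fe4852_pr.PointwiseOptimal

open Pool.Agent.Lib.MP_fe4852_pr

/-- Every disagreement bound `f` satisfies `f x ≥ 2x/(1+x)` for every `x ∈ [0,1]`. -/
theorem result (f : ℝ → ℝ) (hf : IsDisagreementBound f) (x : ℝ) (hx : x ∈ Set.Icc (0 : ℝ) 1) :
    2 * x / (1 + x) ≤ f x :=
  bound_ge hf hx

end Pool.Agent.Results.MP_fe4852_pr.PointwiseOptimal
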